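import Mathlib
import Pool.Agent.Y777.AM.E

/-!
# Relations between double zeta values of the same weight, uniformly in the weight

Let `c_n ζ(n, k - n) + ∑ c_s ζ(s, k - s) + d ζ(k) = 0` be a relation between double zeta values of
the same weight `k` with a bounded number of terms, and let `n` be the smallest first argument. Then
the coefficients are not bounded by `C ^ n` as soon as `n` is large. The weight `k` is arbitrary
compared with `n`. The proof uses a general theorem about multiple zeta values of the same weight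
(helper files `Pool.Agent.Y777.AM`, `Pool.Agent.Y777.AL`, after `Pool.Agent.Y760.ZG`), which rests
on the subspace theorem.
-/

set_option autoImplicit false

namespace Pool.Agent.Results.MP_9206b6_nt.AllWeights

/-- the double zeta value `ζ(s, t)`, the sum of `l ^ (-s) m ^ (-t)` over `l > m ≥ 1` -/
noncomputable def doubleZeta (s t : ℕ) : ℝ :=
  ∑' l : ℕ, (∑ m ∈ Finset.Ico 1 (l + 1), 1 / (m : ℝ) ^ t) / ((l + 1 : ℕ) : ℝ) ^ s

open Pool.Agent.Y760.ZG Pool.Agent.Y777.AL Pool.Agent.Y777.AM

lemma mz_two (s t : ℕ) : mz [s, t] = doubleZeta s t := by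
  rw [mz, doubleZeta]
  refine tsum_congr fun l => ?_
  rw [hr_cons]
  simp only [hr_nil]

lemma mz_one (s : ℕ) : mz [s] = ∑' l : ℕ, 1 / ((l + 1 : ℕ) : ℝ) ^ s := by
  rw [mz]
  refine tsum_congr fun l => ?_
  rw [hr_nil]

/-- Let `β_1, ..., β_l` be real algebraic numbers, linearly independent over `ℚ`, `N` a number and
`C` a real number. There are `B > 1` and `n0` such that for all `k > n ≥ n0`, all sets `S` of at most
`N` integers with `n ∈ S` and `n ≤ s < k` for `s ∈ S`, and all coefficients `c_s = ∑ c_{s j} β_j`,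
`d = ∑ d_j β_j` with integers `c_{s j}`, `d_j` of absolute value at most `C ^ n` and `c_n ≠ 0`:
`|∑ c_s ζ(s, k - s) + d ζ(k)| > B ^ (-n)`. -/
theorem result {l : ℕ} (β : Fin l → ℝ) (hβ : ∀ j, IsAlgebraic ℚ (β j))
    (hli : LinearIndependent ℚ β) (N : ℕ) (C : ℝ) :
    ∃ B : ℝ, 1 < B ∧ ∃ n0 : ℕ, ∀ n k : ℕ, n0 ≤ n → n < k → ∀ S : Finset ℕ, S.card ≤ N →
      n ∈ S → (∀ s ∈ S, n ≤ s ∧ s < k) → ∀ (c : ℕ → Fin l → ℤ) (d : Fin l → ℤ), c n ≠ 0 →
      (∀ s ∈ S, ∀ j, |(c s j : ℝ)| ≤ C ^ n) → (∀ j, |(d j : ℝ)| ≤ C ^ n) →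
      (B ^ n)⁻¹ < |∑ s ∈ S, (∑ j, β j * c s j) * doubleZeta s (k - s) +
        (∑ j, β j * d j) * ∑' m : ℕ, 1 / ((m + 1 : ℕ) : ℝ) ^ k| := by
  classical
  obtain ⟨B, hB, n0, h⟩ := G1 β hβ hli (N + 1) 2 1 C
  refine ⟨B, hB, n0 + 1, fun n k hn hnk S hSN hnS hS c d hcn hc hd => ?_⟩
  set ι : ℕ → List ℕ := fun s => [s, k - s] with hι
  have hιi : Function.Injective ι := by
    intro s s' h
    rw [hι] at h
    simp only [List.cons.injEq] at h
    exact h.1
  set W : Finset (List ℕ) := insert [k] (S.image ι) with hW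
  have hkι : [k] ∉ S.image ι := by
    intro h
    obtain ⟨s, -, hs⟩ := Finset.mem_image.1 h
    rw [hι] at hs
    simp at hs
  set a : List ℕ → Fin l → ℤ := fun w j => if w.length = 1 then d j else c w.headI j with ha
  have ha1 : a [k] = d := by
    rw [ha]
    simp
  have ha2 : ∀ s, a (ι s) = c s := by
    intro s
    rw [ha, hι]
    simp
  have h1 := h n (by omega) k W ((Finset.card_insert_le _ _).trans
    (Nat.succ_le_succ (Finset.card_image_le.trans hSN))) (by
      intro w hw
      rw [hW, Finset.mem_insert] at hw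
      rcases hw with rfl | hw
      · refine ⟨⟨by simp, fun m hm => ?_, fun m hm => ?_⟩, by simp⟩
        · rw [List.mem_singleton] at hm
          omega
        · rw [List.head?_cons, Option.mem_some_iff] at hm
          subst hm
          refine ⟨hnk.le, ?_⟩
          intro m hm
          simp at hm
      · obtain ⟨s, hs, rfl⟩ := Finset.mem_image.1 hw
        obtain ⟨hs1, hs2⟩ := hS s hs
        refine ⟨⟨by rw [hι]; simp, fun m hm => ?_, fun m hm => ?_⟩, ?_⟩
        · rw [hι] at hm
          simp only [List.mem_cons, List.not_mem_nil, or_false] at hm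
          rcases hm with rfl | rfl
          · omega
          · omega
        · rw [hι] at hm
          rw [List.head?_cons, Option.mem_some_iff] at hm
          subst hm
          refine ⟨hs1, ?_⟩
          intro m hm
          rw [hι] at hm
          simp at hm
          subst hm
          rw [one_mul]
        · rw [hι]
          simp only [List.sum_cons, List.sum_nil]
          omega) a
    ⟨ι n, Finset.mem_insert_of_mem (Finset.mem_image_of_mem _ hnS), ⟨by rw [hι]; simp, by
      rw [hι]
      intro m hm
      rw [List.head?_cons, Option.mem_some_iff] at hm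
      omega⟩, by
      rw [ha2]
      by_contra hcon
      push Not at hcon
      exact hcn (funext hcon)⟩ (by
      intro w hw j
      rw [hW, Finset.mem_insert] at hw
      rcases hw with rfl | hw
      · rw [ha1]
        exact hd j
      · obtain ⟨s, hs, rfl⟩ := Finset.mem_image.1 hw
        rw [ha2]
        exact hc s hs j)
  refine lt_of_lt_of_eq h1 ?_
  congr 1
  rw [hW, Finset.sum_insert hkι, Finset.sum_image fun s _ s' _ h => hιi h, add_comm]
  congr 1
  · refine Finset.sum_congr rfl fun s _ => ?_
    rw [ha2, Finset.sum_mul, hι]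
    simp only
    rw [mz_two]
  · rw [ha1, Finset.sum_mul, mz_one]

end Pool.Agent.Results.MP_9206b6_nt.AllWeights
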